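import Pool.Agent.Y746.OJ.Stm
import Pool.Agent.H370R2.Local
import Pool.Agent.H370R2.DirGood

/-!
# Project OJ (helper746): crude bounds for `J0` and `S0`
-/

set_option autoImplicit false

open Filter Topology MeasureTheory Set Metric

namespace Pool.Agent.Y340.OJ

open Pool.Agent.Y746.OJ
open H370.Loc (Pf Pf_zero Pf_cons Pf_diff Pf_ne_zero Pf_norm_ge Pf_norm_le extract
  logDeriv_zero_free)

theorem pt_eq (σ y : ℝ) : pt σ y = ⟨σ, y⟩ := by
  apply Complex.ext <;> simp [pt]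

theorem pt_re (σ y : ℝ) : (pt σ y).re = σ := by rw [pt_eq]

theorem pt_im (σ y : ℝ) : (pt σ y).im = y := by rw [pt_eq]

theorem continuous_pt (y : ℝ) : Continuous (fun σ : ℝ => pt σ y) := by
  unfold pt
  fun_prop

theorem norm_pt_sub (σ τ y : ℝ) : ‖pt σ y - pt τ y‖ = |σ - τ| := by
  have h : pt σ y - pt τ y = ((σ - τ : ℝ) : ℂ) := by
    unfold pt
    push_cast
    ring
  rw [h, Complex.norm_real, Real.norm_eq_abs]

theorem abs_mul_log_le {x : ℝ} (hx : |x| ≤ 4) : |x * Real.log x| ≤ 12 := by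
  rw [abs_mul, ← Real.log_abs]
  rcases eq_or_lt_of_le (abs_nonneg x) with h | h
  · rw [← h]
    norm_num
  rcases le_or_gt |x| 1 with h1 | h1
  · have := (Real.abs_log_mul_self_lt |x| h h1).le
    rw [abs_mul, abs_abs, mul_comm] at this
    linarith
  · have h2 : 0 ≤ Real.log |x| := Real.log_nonneg h1.le
    have h3 : Real.log |x| ≤ |x| - 1 := Real.log_le_sub_one_of_pos h
    rw [abs_of_nonneg h2]
    nlinarith

/-- The mean value of `log |s - ρ|` over a segment. -/
theorem int_log {y : ℝ} {ρ : ℂ} (hρ : ρ ∈ closedBall (pt 2 y) (18 / 10))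
    (hne : ∀ σ ∈ Icc (1 / 2 : ℝ) (3 / 2), pt σ y ≠ ρ) :
    |∫ σ in (1 / 2 : ℝ)..(3 / 2), Real.log ‖pt σ y - ρ‖| ≤ 25 := by
  have h12 : (1 / 2 : ℝ) ≤ 3 / 2 := by norm_num
  have hcont : ContinuousOn (fun σ : ℝ => Real.log ‖pt σ y - ρ‖) (Icc (1 / 2 : ℝ) (3 / 2)) := by
    refine ContinuousOn.log ?_ ?_
    · exact (((continuous_pt y).sub continuous_const).norm).continuousOn
    · intro σ hσ
      exact norm_ne_zero_iff.2 (sub_ne_zero.2 (hne σ hσ))
  have hint : IntervalIntegrable (fun σ : ℝ => Real.log ‖pt σ y - ρ‖) volume (1 / 2) (3 / 2) :=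
    hcont.intervalIntegrable_of_Icc h12
  have hρ' : ‖ρ - pt 2 y‖ ≤ 18 / 10 := by rwa [mem_closedBall, dist_eq_norm] at hρ
  have hre : |ρ.re - 2| ≤ 18 / 10 := by
    have := (Complex.abs_re_le_norm (ρ - pt 2 y)).trans hρ'
    rwa [Complex.sub_re, pt_re] at this
  rw [abs_le] at hre
  rw [abs_le]
  constructor
  · have h1 : ∫ σ in (1 / 2 : ℝ)..(3 / 2), Real.log (σ - ρ.re) =
        (3 / 2 - ρ.re) * Real.log (3 / 2 - ρ.re) - (1 / 2 - ρ.re) * Real.log (1 / 2 - ρ.re) -
          (3 / 2 - ρ.re) + (1 / 2 - ρ.re) := by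
      rw [intervalIntegral.integral_comp_sub_right (fun x => Real.log x) ρ.re, integral_log]
    have h2 : |(3 / 2 - ρ.re) * Real.log (3 / 2 - ρ.re)| ≤ 12 :=
      abs_mul_log_le (by rw [abs_le]; constructor <;> linarith [hre.1, hre.2])
    have h3 : |(1 / 2 - ρ.re) * Real.log (1 / 2 - ρ.re)| ≤ 12 :=
      abs_mul_log_le (by rw [abs_le]; constructor <;> linarith [hre.1, hre.2])
    rw [abs_le] at h2 h3
    have h4 : (-25 : ℝ) ≤ ∫ σ in (1 / 2 : ℝ)..(3 / 2), Real.log (σ - ρ.re) := by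
      rw [h1]; linarith [h2.1, h3.2]
    refine h4.trans ?_
    refine intervalIntegral.integral_mono_ae h12 ?_ hint ?_
    · have h5 := (intervalIntegral.intervalIntegrable_log' (a := 1 / 2 - ρ.re)
        (b := 3 / 2 - ρ.re)).comp_sub_right ρ.re
      simpa using h5
    · have h6 : ∀ᵐ σ : ℝ, σ ∉ ({ρ.re} : Set ℝ) := (Set.countable_singleton _).ae_notMem _
      filter_upwards [h6] with σ hσ
      have h7 : 0 < |σ - ρ.re| := abs_pos.2 (sub_ne_zero.2 hσ)
      rw [← Real.log_abs]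
      apply Real.log_le_log h7
      have := Complex.abs_re_le_norm (pt σ y - ρ)
      rwa [Complex.sub_re, pt_re] at this
  · have h5 : ∫ σ in (1 / 2 : ℝ)..(3 / 2), Real.log ‖pt σ y - ρ‖ ≤
        ∫ _ in (1 / 2 : ℝ)..(3 / 2), (25 : ℝ) := by
      refine intervalIntegral.integral_mono_on h12 hint intervalIntegrable_const ?_
      intro σ hσ
      have h6 : 0 < ‖pt σ y - ρ‖ := norm_pos_iff.2 (sub_ne_zero.2 (hne σ hσ))
      have h7 := Real.log_le_sub_one_of_pos h6
      have h8 : ‖pt σ y - ρ‖ ≤ ‖pt σ y - pt 2 y‖ + ‖ρ - pt 2 y‖ := by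
        rw [← norm_neg (ρ - pt 2 y)]
        calc ‖pt σ y - ρ‖ = ‖(pt σ y - pt 2 y) + -(ρ - pt 2 y)‖ := by congr 1; ring
          _ ≤ _ := norm_add_le _ _
      rw [norm_pt_sub] at h8
      have h9 : |σ - 2| ≤ 2 := by rw [abs_le]; constructor <;> linarith [hσ.1, hσ.2]
      linarith
    refine h5.trans ?_
    rw [intervalIntegral.integral_const]
    norm_num

/-- The variation of the argument of `s - ρ` over a segment. -/
theorem int_im {y : ℝ} {ρ : ℂ} :
    |∫ σ in (1 / 2 : ℝ)..(3 / 2), (1 / (pt σ y - ρ)).im| ≤ Real.pi := by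
  set b : ℝ := y - ρ.im with hb
  have e1 : ∀ σ : ℝ, (1 / (pt σ y - ρ)).im = -b / ((σ - ρ.re) ^ 2 + b ^ 2) := by
    intro σ
    rw [one_div, Complex.inv_im, Complex.normSq_apply, Complex.sub_im, Complex.sub_re, pt_re,
      pt_im, ← hb]
    congr 1
    ring
  simp only [e1]
  by_cases hb0 : b = 0
  · simp only [hb0, neg_zero, zero_div, intervalIntegral.integral_zero, abs_zero]
    exact Real.pi_pos.le
  have hder : ∀ σ : ℝ, HasDerivAt (fun σ => -Real.arctan ((σ - ρ.re) / b))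
      (-b / ((σ - ρ.re) ^ 2 + b ^ 2)) σ := by
    intro σ
    have h1 : HasDerivAt (fun σ : ℝ => (σ - ρ.re) / b) (1 / b) σ :=
      ((hasDerivAt_id σ).sub_const ρ.re).div_const b
    have h2 := h1.arctan.neg
    refine h2.congr_deriv ?_
    have h3 : (σ - ρ.re) ^ 2 + b ^ 2 ≠ 0 := by positivity
    have h4 : 1 + ((σ - ρ.re) / b) ^ 2 ≠ 0 := by positivity
    field_simp
    ring
  rw [intervalIntegral.integral_eq_sub_of_hasDerivAt (fun σ _ => hder σ)]
  · have h1 := Real.arctan_lt_pi_div_two ((3 / 2 - ρ.re) / b)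
    have h2 := Real.neg_pi_div_two_lt_arctan ((3 / 2 - ρ.re) / b)
    have h3 := Real.arctan_lt_pi_div_two ((1 / 2 - ρ.re) / b)
    have h4 := Real.neg_pi_div_two_lt_arctan ((1 / 2 - ρ.re) / b)
    rw [abs_le]
    constructor <;> linarith
  · apply Continuous.intervalIntegrable
    refine Continuous.div continuous_const (by fun_prop) fun σ => ?_
    positivity

theorem analyticAt_logDeriv {f : ℂ → ℂ} {z : ℂ} (hf : AnalyticAt ℂ f z) (h0 : f z ≠ 0) :
    AnalyticAt ℂ (logDeriv f) z := hf.deriv.div hf h0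

theorem logDeriv_cons {ρ : ℂ} {s : Multiset ℂ} {z : ℂ} (h : ∀ ρ' ∈ ρ ::ₘ s, z ≠ ρ') :
    logDeriv (Pf (ρ ::ₘ s)) z = 1 / (z - ρ) + logDeriv (Pf s) z := by
  have h0 : Pf (ρ ::ₘ s) = fun z => (z - ρ) * Pf s z := funext (Pf_cons ρ s)
  have hz : z - ρ ≠ 0 := sub_ne_zero.2 (h ρ (Multiset.mem_cons_self ρ s))
  have hP : Pf s z ≠ 0 := Pf_ne_zero fun ρ' h' => h ρ' (Multiset.mem_cons_of_mem h')
  have e1 : logDeriv (fun z => (z - ρ) * Pf s z) z =
      logDeriv (fun z => z - ρ) z + logDeriv (Pf s) z :=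
    logDeriv_mul z hz hP (differentiableAt_id.sub_const ρ) (Pf_diff s z)
  have e2 : logDeriv (fun z => z - ρ) z = 1 / (z - ρ) := by
    rw [logDeriv_apply]
    congr 1
    simp
  rw [h0, e1, e2]

theorem cont_log_Pf {y : ℝ} {s : Multiset ℂ}
    (hne : ∀ ρ ∈ s, ∀ σ ∈ Icc (1 / 2 : ℝ) (3 / 2), pt σ y ≠ ρ) :
    ContinuousOn (fun σ : ℝ => Real.log ‖Pf s (pt σ y)‖) (Icc (1 / 2 : ℝ) (3 / 2)) := by
  refine ContinuousOn.log ?_ ?_
  · exact (((Pf_diff s).continuous.comp (continuous_pt y)).norm).continuousOn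
  · intro σ hσ
    exact norm_ne_zero_iff.2 (Pf_ne_zero fun ρ hρ => hne ρ hρ σ hσ)

theorem cont_ld {y : ℝ} {f : ℂ → ℂ} {a b : ℝ}
    (hf : ∀ σ ∈ Icc a b, AnalyticAt ℂ f (pt σ y))
    (hne : ∀ σ ∈ Icc a b, f (pt σ y) ≠ 0) :
    ContinuousOn (fun σ : ℝ => (logDeriv f (pt σ y)).im) (Icc a b) := by
  intro σ hσ
  have h1 := (analyticAt_logDeriv (hf σ hσ) (hne σ hσ)).continuousAt
  have h2 : ContinuousAt (fun σ : ℝ => logDeriv f (pt σ y)) σ :=
    ContinuousAt.comp (f := fun σ : ℝ => pt σ y) (g := logDeriv f) h1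
      (continuous_pt y).continuousAt
  exact (Complex.continuous_im.continuousAt.comp h2).continuousWithinAt

theorem int_Pf {y : ℝ} (s : Multiset ℂ) (hs : ∀ ρ ∈ s, ρ ∈ closedBall (pt 2 y) (18 / 10))
    (hne : ∀ ρ ∈ s, ∀ σ ∈ Icc (1 / 2 : ℝ) (3 / 2), pt σ y ≠ ρ) :
    |∫ σ in (1 / 2 : ℝ)..(3 / 2), Real.log ‖Pf s (pt σ y)‖| ≤ 25 * Multiset.card s ∧
    |∫ σ in (1 / 2 : ℝ)..(3 / 2), (logDeriv (Pf s) (pt σ y)).im| ≤ Real.pi * Multiset.card s := by
  have h12 : (1 / 2 : ℝ) ≤ 3 / 2 := by norm_num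
  induction s using Multiset.induction_on with
  | empty =>
    have : Pf 0 = fun _ => (1 : ℂ) := funext Pf_zero
    simp [this, logDeriv]
  | cons ρ s ih =>
    have hs' : ∀ ρ' ∈ s, ρ' ∈ closedBall (pt 2 y) (18 / 10) := fun ρ' h' =>
      hs ρ' (Multiset.mem_cons_of_mem h')
    have hne' : ∀ ρ' ∈ s, ∀ σ ∈ Icc (1 / 2 : ℝ) (3 / 2), pt σ y ≠ ρ' := fun ρ' h' =>
      hne ρ' (Multiset.mem_cons_of_mem h')
    have hρ := hs ρ (Multiset.mem_cons_self ρ s)
    have hρn := hne ρ (Multiset.mem_cons_self ρ s)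
    obtain ⟨ih1, ih2⟩ := ih hs' hne'
    have hcard : ((Multiset.card (ρ ::ₘ s) : ℕ) : ℝ) = Multiset.card s + 1 := by
      rw [Multiset.card_cons]; push_cast; ring
    rw [hcard]
    constructor
    · have e1 : ∫ σ in (1 / 2 : ℝ)..(3 / 2), Real.log ‖Pf (ρ ::ₘ s) (pt σ y)‖ =
          (∫ σ in (1 / 2 : ℝ)..(3 / 2), Real.log ‖pt σ y - ρ‖) +
            ∫ σ in (1 / 2 : ℝ)..(3 / 2), Real.log ‖Pf s (pt σ y)‖ := by
        rw [← intervalIntegral.integral_add]
        · refine intervalIntegral.integral_congr fun σ hσ => ?_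
          rw [uIcc_of_le h12] at hσ
          rw [Pf_cons, norm_mul, Real.log_mul]
          · exact norm_ne_zero_iff.2 (sub_ne_zero.2 (hρn σ hσ))
          · exact norm_ne_zero_iff.2 (Pf_ne_zero fun ρ' h' => hne' ρ' h' σ hσ)
        · refine ContinuousOn.intervalIntegrable_of_Icc h12 (ContinuousOn.log ?_ ?_)
          · exact (((continuous_pt y).sub continuous_const).norm).continuousOn
          · intro σ hσ
            exact norm_ne_zero_iff.2 (sub_ne_zero.2 (hρn σ hσ))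
        · exact (cont_log_Pf hne').intervalIntegrable_of_Icc h12
      rw [e1]
      refine (abs_add_le _ _).trans ?_
      have := int_log hρ hρn
      linarith
    · have e1 : ∫ σ in (1 / 2 : ℝ)..(3 / 2), (logDeriv (Pf (ρ ::ₘ s)) (pt σ y)).im =
          (∫ σ in (1 / 2 : ℝ)..(3 / 2), (1 / (pt σ y - ρ)).im) +
            ∫ σ in (1 / 2 : ℝ)..(3 / 2), (logDeriv (Pf s) (pt σ y)).im := by
        rw [← intervalIntegral.integral_add]
        · refine intervalIntegral.integral_congr fun σ hσ => ?_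
          rw [uIcc_of_le h12] at hσ
          rw [logDeriv_cons fun ρ' h' => hne ρ' h' σ hσ, Complex.add_im]
        · refine ContinuousOn.intervalIntegrable_of_Icc h12 ?_
          refine Complex.continuous_im.comp_continuousOn ?_
          refine ContinuousOn.div continuousOn_const
            ((continuous_pt y).sub continuous_const).continuousOn ?_
          intro σ hσ
          exact sub_ne_zero.2 (hρn σ hσ)
        · refine ContinuousOn.intervalIntegrable_of_Icc h12 (cont_ld (fun σ _ => ?_)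
            fun σ hσ => Pf_ne_zero fun ρ' h' => hne' ρ' h' σ hσ)
          exact (Pf_diff s).analyticAt _
      rw [e1]
      refine (abs_add_le _ _).trans ?_
      have := int_im (y := y) (ρ := ρ)
      linarith

/-- The derivative of `log |g|` along a horizontal line. -/
theorem hasDerivAt_log {g : ℂ → ℂ} {σ y : ℝ} (hg : AnalyticAt ℂ g (pt σ y))
    (h0 : g (pt σ y) ≠ 0) :
    HasDerivAt (fun τ : ℝ => Real.log ‖g (pt τ y)‖) (logDeriv g (pt σ y)).re σ := by
  have h1 : HasDerivAt (fun τ : ℝ => pt τ y) 1 σ := by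
    unfold pt
    exact (Complex.ofRealCLM.hasDerivAt (x := σ)).add_const _
  have h2 : HasDerivAt (fun τ : ℝ => g (pt τ y)) (deriv g (pt σ y)) σ := by
    have := hg.differentiableAt.hasDerivAt.comp σ h1
    rw [mul_one] at this
    exact this
  have h3 := h2.norm_sq
  have hpos : ‖g (pt σ y)‖ ^ 2 ≠ 0 := pow_ne_zero _ (norm_ne_zero_iff.2 h0)
  have h4 := (h3.log hpos).const_mul (1 / 2)
  have h5 : (fun τ : ℝ => Real.log ‖g (pt τ y)‖) =
      fun τ : ℝ => 1 / 2 * Real.log (‖g (pt τ y)‖ ^ 2) := by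
    funext τ
    rw [Real.log_pow]
    push_cast
    ring
  rw [h5]
  refine h4.congr_deriv ?_
  rw [Complex.inner, logDeriv_apply, Complex.div_re, ← Complex.sq_norm]
  simp only [Complex.mul_re, Complex.conj_re, Complex.conj_im]
  field_simp
  ring

theorem zdata : ∃ K : ℝ, 0 < K ∧ ∀ y : ℝ, 2 ≤ y → ∃ M : ℝ, 1 ≤ M ∧
    AnalyticOnNhd ℂ riemannZeta (closedBall (pt 2 y) (19 / 10)) ∧ riemannZeta (pt 2 y) ≠ 0 ∧
    (∀ z ∈ closedBall (pt 2 y) (19 / 10), ‖riemannZeta z‖ ≤ M) ∧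
    Real.log M ≤ K * Real.log y ∧
    -(K * Real.log y) ≤ Real.log ‖riemannZeta (pt 2 y)‖ := by
  have hF := H370.good_zeta
  obtain ⟨C, A, hC, hA, hg⟩ := hF.growth
  obtain ⟨c, hc, hl⟩ := hF.lower
  obtain ⟨M₀, hM₀⟩ : ∃ M₀ : ℝ, ∀ z : ℂ, z ∈ (Icc (1 / 10 : ℝ) 4) ×ℂ (Icc (1 / 10 : ℝ) 1) →
      ‖riemannZeta z‖ ≤ M₀ := by
    refine (isCompact_Icc.reProdIm isCompact_Icc).exists_bound_of_continuousOn ?_
    intro z hz
    rw [Complex.mem_reProdIm] at hz
    exact (hF.an z (by linarith [hz.2.1])).continuousAt.continuousWithinAt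
  have hlog2 : 0 < Real.log 2 := Real.log_pos (by norm_num)
  set N : ℝ := |M₀| + C + 1 with hN
  have hN1 : 1 ≤ N := by rw [hN]; have := abs_nonneg M₀; linarith
  refine ⟨(|Real.log N| + |Real.log c|) / Real.log 2 + 2 * A + 1, by positivity,
    fun y hy => ?_⟩
  have hlogy : Real.log 2 ≤ Real.log y := Real.log_le_log (by norm_num) hy
  have hly0 : 0 < Real.log y := by linarith
  have hball : ∀ z ∈ closedBall (pt 2 y) (19 / 10), (1 / 10 : ℝ) ≤ z.re ∧ z.re ≤ 4 ∧
      1 / 10 ≤ z.im ∧ z.im ≤ y + 2 := by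
    intro z hz
    rw [mem_closedBall, dist_eq_norm] at hz
    have h1 := (Complex.abs_re_le_norm (z - pt 2 y)).trans hz
    have h2 := (Complex.abs_im_le_norm (z - pt 2 y)).trans hz
    rw [Complex.sub_re, pt_re] at h1
    rw [Complex.sub_im, pt_im] at h2
    rw [abs_le] at h1 h2
    refine ⟨by linarith [h1.1], by linarith [h1.2], by linarith [h2.1], by linarith [h2.2]⟩
  have hp1 : 1 ≤ (y + 2) ^ A := Real.one_le_rpow (by linarith) hA.le
  have hc0 : c ≤ ‖riemannZeta (pt 2 y)‖ := by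
    rw [pt_eq]
    exact hl y (by linarith)
  have hc1 : 0 < ‖riemannZeta (pt 2 y)‖ := hc.trans_le hc0
  have hx : ∀ x : ℝ, |x| ≤ |x| / Real.log 2 * Real.log y := by
    intro x
    rw [div_mul_eq_mul_div, le_div_iff₀ hlog2]
    exact mul_le_mul_of_nonneg_left hlogy (abs_nonneg x)
  refine ⟨N * (y + 2) ^ A, by nlinarith, ?_, norm_pos_iff.1 hc1, ?_, ?_, ?_⟩
  · intro z hz
    exact hF.an z (by linarith [(hball z hz).2.2.1])
  · intro z hz
    obtain ⟨h1, h2, h3, h4⟩ := hball z hz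
    rcases le_or_gt z.im 1 with h5 | h5
    · have h6 := hM₀ z (by rw [Complex.mem_reProdIm]; exact ⟨⟨h1, h2⟩, ⟨h3, h5⟩⟩)
      have h7 := le_abs_self M₀
      nlinarith
    · have h6 := hg z (by linarith) h2 h5.le
      have h7 : z.im ^ A ≤ (y + 2) ^ A := Real.rpow_le_rpow (by linarith) h4 hA.le
      have h8 : C * z.im ^ A ≤ C * (y + 2) ^ A := mul_le_mul_of_nonneg_left h7 hC.le
      have h9 : C * (y + 2) ^ A ≤ N * (y + 2) ^ A := by
        apply mul_le_mul_of_nonneg_right _ (by linarith)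
        rw [hN]
        have := abs_nonneg M₀
        linarith
      linarith
  · rw [Real.log_mul (by positivity) (by positivity), Real.log_rpow (by linarith)]
    have h1 : Real.log (y + 2) ≤ 2 * Real.log y := by
      have h2 : Real.log (y + 2) ≤ Real.log (y ^ 2) := Real.log_le_log (by linarith) (by nlinarith)
      rw [Real.log_pow] at h2
      exact_mod_cast h2
    have h2 := hx (Real.log N)
    have h3 := le_abs_self (Real.log N)
    have h4 : A * Real.log (y + 2) ≤ A * (2 * Real.log y) := mul_le_mul_of_nonneg_left h1 hA.le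
    have h5 : 0 ≤ |Real.log c| / Real.log 2 * Real.log y := by positivity
    rw [add_div]
    nlinarith
  · have h1 : Real.log c ≤ Real.log ‖riemannZeta (pt 2 y)‖ := Real.log_le_log hc hc0
    have h2 := hx (Real.log c)
    have h3 := neg_abs_le (Real.log c)
    have h5 : 0 ≤ |Real.log N| / Real.log 2 * Real.log y := by positivity
    rw [add_div]
    nlinarith

/-- The local structure of zeta. -/
theorem decomp : ∃ K : ℝ, 0 < K ∧ ∀ y : ℝ, 2 ≤ y → ∃ (s : Multiset ℂ) (g : ℂ → ℂ),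
    (∀ ρ ∈ s, ρ ∈ closedBall (pt 2 y) (18 / 10) ∧ riemannZeta ρ = 0) ∧
    AnalyticOnNhd ℂ g (closedBall (pt 2 y) (18 / 10)) ∧
    (∀ z, riemannZeta z = Pf s z * g z) ∧
    (∀ z ∈ closedBall (pt 2 y) (18 / 10), g z ≠ 0) ∧
    (Multiset.card s : ℝ) ≤ K * Real.log y ∧
    (∀ z ∈ closedBall (pt 2 y) (16 / 10), ‖logDeriv g z‖ ≤ K * Real.log y) ∧
    |Real.log ‖g (pt 2 y)‖| ≤ K * Real.log y := by
  obtain ⟨K, hK, hdata⟩ := zdata
  have hlog2 : 0 < Real.log 2 := Real.log_pos (by norm_num)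
  set κ : ℝ := Real.log ((19 / 10) / (18 / 10)) with hκ
  have hκ0 : 0 < κ := Real.log_pos (by norm_num)
  set Λ : ℝ := Real.log ((18 / 10) / (19 / 10 - 18 / 10)) with hΛ
  have hΛ0 : 0 ≤ Λ := Real.log_nonneg (by norm_num)
  refine ⟨2 * K / κ + 340 * (2 * K + 2 * K / κ * Λ + 1 / Real.log 2) +
    (K + 2 * K / κ * Real.log 10), by
      have : 0 < Real.log 10 := Real.log_pos (by norm_num)
      positivity, fun y hy => ?_⟩
  have hlog10 : 0 < Real.log 10 := Real.log_pos (by norm_num)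
  obtain ⟨M, hM, hf, hc, hb, hMl, hcl⟩ := hdata y hy
  have hlogy : Real.log 2 ≤ Real.log y := Real.log_le_log (by norm_num) hy
  have hly0 : 0 < Real.log y := by linarith
  set c : ℂ := pt 2 y with hcdef
  obtain ⟨s, g, hs, hg, hfg, hg0, hcard⟩ := extract (r := 18 / 10) (R := 19 / 10) (by norm_num)
    (by norm_num) hM hf hc hb
  have hfc : 0 < ‖riemannZeta c‖ := norm_pos_iff.2 hc
  have hMf : ‖riemannZeta c‖ ≤ M := hb c (mem_closedBall_self (by norm_num))
  set n := Multiset.card s with hn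
  set L : ℝ := Real.log (M / ‖riemannZeta c‖) with hL
  have hL0 : 0 ≤ L := Real.log_nonneg (by rw [le_div_iff₀ hfc]; linarith)
  have hLe : L = Real.log M - Real.log ‖riemannZeta c‖ :=
    Real.log_div (by linarith) hfc.ne'
  have hLb : L ≤ 2 * K * Real.log y := by rw [hLe]; linarith
  have hnb : (n : ℝ) ≤ 2 * K / κ * Real.log y := by
    refine hcard.trans ?_
    rw [← hκ, div_mul_eq_mul_div]
    exact div_le_div_of_nonneg_right hLb hκ0.le
  -- bounds for g
  have hRr0 : (0 : ℝ) < 19 / 10 - 18 / 10 := by norm_num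
  have hgsphere : ∀ w ∈ sphere c (19 / 10), ‖g w‖ ≤ M / (19 / 10 - 18 / 10) ^ n := by
    intro w hw
    have hwR := sphere_subset_closedBall hw
    have h1 : (19 / 10 - 18 / 10 : ℝ) ^ n ≤ ‖Pf s w‖ := Pf_norm_ge hRr0.le fun ρ hρ => by
      have h2 := (hs ρ hρ).1
      rw [mem_closedBall, dist_eq_norm] at h2
      rw [mem_sphere, dist_eq_norm] at hw
      have h3 : ‖w - c‖ ≤ ‖w - ρ‖ + ‖ρ - c‖ := by
        calc ‖w - c‖ = ‖(w - ρ) + (ρ - c)‖ := by congr 1; ring
          _ ≤ _ := norm_add_le _ _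
      linarith
    rw [le_div_iff₀ (by positivity)]
    calc ‖g w‖ * (19 / 10 - 18 / 10) ^ n ≤ ‖g w‖ * ‖Pf s w‖ :=
          mul_le_mul_of_nonneg_left h1 (norm_nonneg _)
      _ = ‖riemannZeta w‖ := by rw [hfg w, norm_mul, mul_comm]
      _ ≤ M := hb w hwR
  have hgball : ∀ w ∈ closedBall c (19 / 10), ‖g w‖ ≤ M / (19 / 10 - 18 / 10) ^ n := by
    intro w hw
    refine Complex.norm_le_of_forall_mem_frontier_norm_le (U := ball c (19 / 10))
      isBounded_ball ?_ ?_ ?_
    · apply DifferentiableOn.diffContOnCl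
      rw [closure_ball c (by norm_num)]
      exact fun x hx => (hg x hx).differentiableAt.differentiableWithinAt
    · intro x hx
      rw [frontier_ball c (by norm_num)] at hx
      exact hgsphere x hx
    · rwa [closure_ball c (by norm_num)]
  have hgc : ‖riemannZeta c‖ / (18 / 10) ^ n ≤ ‖g c‖ := by
    rw [div_le_iff₀ (by positivity)]
    have h1 : ‖Pf s c‖ ≤ (18 / 10) ^ n := Pf_norm_le fun ρ hρ => by
      have h2 := (hs ρ hρ).1
      rw [mem_closedBall, dist_eq_norm, norm_sub_rev] at h2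
      exact h2
    calc ‖riemannZeta c‖ = ‖g c‖ * ‖Pf s c‖ := by rw [hfg c, norm_mul, mul_comm]
      _ ≤ ‖g c‖ * (18 / 10) ^ n := mul_le_mul_of_nonneg_left h1 (norm_nonneg _)
  set B : ℝ := L + n * Λ with hB
  have hB0 : 0 ≤ B := by positivity
  have hexpB : Real.exp B = M / ‖riemannZeta c‖ * ((18 / 10) / (19 / 10 - 18 / 10)) ^ n := by
    rw [hB, Real.exp_add, hL, Real.exp_log (by positivity), Real.exp_nat_mul, hΛ,
      Real.exp_log (by norm_num)]
  have hgb : ∀ w ∈ closedBall c (18 / 10), ‖g w‖ ≤ Real.exp B * ‖g c‖ := by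
    intro w hw
    refine (hgball w (closedBall_subset_closedBall (by norm_num) hw)).trans ?_
    rw [hexpB]
    calc M / (19 / 10 - 18 / 10) ^ n = M / ‖riemannZeta c‖ *
          ((18 / 10) / (19 / 10 - 18 / 10)) ^ n * (‖riemannZeta c‖ / (18 / 10) ^ n) := by
          rw [div_pow]; field_simp
      _ ≤ _ := mul_le_mul_of_nonneg_left hgc (by positivity)
  have hBb : B ≤ (2 * K + 2 * K / κ * Λ) * Real.log y := by
    have := mul_le_mul_of_nonneg_right hnb hΛ0
    rw [hB]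
    nlinarith
  have h1b : (1 : ℝ) ≤ 1 / Real.log 2 * Real.log y := by
    rw [div_mul_eq_mul_div, one_mul, le_div_iff₀ hlog2]
    linarith
  have t1 : 0 ≤ 2 * K / κ * Real.log y := by positivity
  have t2 : 0 ≤ 340 * (2 * K + 2 * K / κ * Λ + 1 / Real.log 2) * Real.log y := by positivity
  have t3 : 0 ≤ (K + 2 * K / κ * Real.log 10) * Real.log y := by positivity
  refine ⟨s, g, hs, hg.mono (closedBall_subset_closedBall (by norm_num)), hfg, hg0, ?_, ?_, ?_⟩
  · linarith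
  · intro z hz
    have hlg := logDeriv_zero_free (r := 18 / 10) (r1 := 17 / 10) (r2 := 16 / 10)
      (by norm_num) (by norm_num) (by norm_num) hB0
      (hg.mono (closedBall_subset_closedBall (by norm_num))) hg0 hgb hz
    have e : 2 * (B + 1) * (17 / 10) / (18 / 10 - 17 / 10) / (17 / 10 - 16 / 10) =
        340 * (B + 1) := by ring
    rw [e] at hlg
    refine hlg.trans ?_
    nlinarith
  · have hgc0 : 0 < ‖g c‖ := norm_pos_iff.2 (hg0 c (mem_closedBall_self (by norm_num)))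
    have h10 : Real.log (19 / 10 - 18 / 10) = -Real.log 10 := by
      rw [← Real.log_inv]; norm_num
    have hu : Real.log ‖g c‖ ≤ Real.log M + n * Real.log 10 := by
      have h1 := Real.log_le_log hgc0 (hgball c (mem_closedBall_self (by norm_num)))
      rw [Real.log_div (by linarith) (by positivity), Real.log_pow, h10] at h1
      linarith
    have hl : Real.log ‖riemannZeta c‖ - n * Real.log (18 / 10) ≤ Real.log ‖g c‖ := by
      have h1 := Real.log_le_log (by positivity) hgc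
      rwa [Real.log_div hfc.ne' (by positivity), Real.log_pow] at h1
    have h18 : Real.log (18 / 10) ≤ Real.log 10 := Real.log_le_log (by norm_num) (by norm_num)
    have h2 := mul_le_mul_of_nonneg_right hnb hlog10.le
    have hn0 : (0 : ℝ) ≤ n := Nat.cast_nonneg n
    have h3 := mul_le_mul_of_nonneg_left h18 hn0
    have h4 : |Real.log ‖g c‖| ≤ (K + 2 * K / κ * Real.log 10) * Real.log y := by
      rw [abs_le]
      constructor <;> nlinarith
    linarith

/-- Crude bounds. -/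
theorem t_BD : S_BD := by
  obtain ⟨K, hK, hd⟩ := decomp
  refine ⟨30 * K, by positivity, fun y hy hne => ?_⟩
  have h12 : (1 / 2 : ℝ) ≤ 3 / 2 := by norm_num
  obtain ⟨s, g, hs, hg, hfg, hg0, hcard, hld, hgc⟩ := hd y hy
  have hlog2 : 0 < Real.log 2 := Real.log_pos (by norm_num)
  have hlogy : Real.log 2 ≤ Real.log y := Real.log_le_log (by norm_num) hy
  have hly0 : 0 < Real.log y := by linarith
  have hKl : 0 < K * Real.log y := by positivity
  have hsne : ∀ ρ ∈ s, ∀ σ ∈ Icc (1 / 2 : ℝ) (3 / 2), pt σ y ≠ ρ := by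
    intro ρ hρ σ hσ h
    apply hne σ hσ.1 hσ.2
    rw [h]
    exact (hs ρ hρ).2
  have hseg : ∀ σ ∈ Icc (1 / 2 : ℝ) 2, pt σ y ∈ closedBall (pt 2 y) (16 / 10) := by
    intro σ hσ
    rw [mem_closedBall, dist_eq_norm, norm_pt_sub, abs_le]
    constructor <;> linarith [hσ.1, hσ.2]
  have hseg' : ∀ σ ∈ Icc (1 / 2 : ℝ) 2, pt σ y ∈ closedBall (pt 2 y) (18 / 10) := fun σ hσ =>
    closedBall_subset_closedBall (by norm_num) (hseg σ hσ)
  have hsub : ∀ σ ∈ Icc (1 / 2 : ℝ) (3 / 2), σ ∈ Icc (1 / 2 : ℝ) 2 := fun σ hσ =>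
    ⟨hσ.1, by linarith [hσ.2]⟩
  obtain ⟨hP1, hP2⟩ := int_Pf s (fun ρ hρ => (hs ρ hρ).1) hsne
  constructor
  · -- the mean value of the logarithm
    have hgl : ∀ σ ∈ Icc (1 / 2 : ℝ) 2, |Real.log ‖g (pt σ y)‖| ≤ 3 * (K * Real.log y) := by
      intro σ hσ
      have h1 := (convex_Icc (1 / 2 : ℝ) 2).norm_image_sub_le_of_norm_hasDerivWithin_le
        (f := fun τ : ℝ => Real.log ‖g (pt τ y)‖) (f' := fun τ => (logDeriv g (pt τ y)).re)
        (C := K * Real.log y) (x := 2) (y := σ)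
        (fun τ hτ => (hasDerivAt_log (hg _ (hseg' τ hτ)) (hg0 _ (hseg' τ hτ))).hasDerivWithinAt)
        (fun τ hτ => (Complex.abs_re_le_norm _).trans (hld _ (hseg τ hτ)))
        (right_mem_Icc.2 (by norm_num)) hσ
      have h2 : ‖σ - 2‖ ≤ 2 := by
        rw [Real.norm_eq_abs, abs_le]
        constructor <;> linarith [hσ.1, hσ.2]
      rw [Real.norm_eq_abs] at h1
      have h3 : |Real.log ‖g (pt σ y)‖| ≤ |Real.log ‖g (pt σ y)‖ - Real.log ‖g (pt 2 y)‖| +
          |Real.log ‖g (pt 2 y)‖| := by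
        have := abs_add_le (Real.log ‖g (pt σ y)‖ - Real.log ‖g (pt 2 y)‖)
          (Real.log ‖g (pt 2 y)‖)
        rwa [sub_add_cancel] at this
      nlinarith
    have hcg : ContinuousOn (fun σ : ℝ => Real.log ‖g (pt σ y)‖) (Icc (1 / 2 : ℝ) (3 / 2)) := by
      intro σ hσ
      exact (hasDerivAt_log (hg _ (hseg' σ (hsub σ hσ))) (hg0 _ (hseg' σ
        (hsub σ hσ)))).continuousAt.continuousWithinAt
    have e1 : J0 y = (∫ σ in (1 / 2 : ℝ)..(3 / 2), Real.log ‖Pf s (pt σ y)‖) +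
        ∫ σ in (1 / 2 : ℝ)..(3 / 2), Real.log ‖g (pt σ y)‖ := by
      rw [← intervalIntegral.integral_add ((cont_log_Pf hsne).intervalIntegrable_of_Icc h12)
        (hcg.intervalIntegrable_of_Icc h12)]
      unfold J0
      refine intervalIntegral.integral_congr fun σ hσ => ?_
      rw [uIcc_of_le h12] at hσ
      rw [hfg, norm_mul, Real.log_mul]
      · exact norm_ne_zero_iff.2 (Pf_ne_zero fun ρ' h' => hsne ρ' h' σ hσ)
      · exact norm_ne_zero_iff.2 (hg0 _ (hseg' σ (hsub σ hσ)))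
    have h2 : |∫ σ in (1 / 2 : ℝ)..(3 / 2), Real.log ‖g (pt σ y)‖| ≤ 3 * (K * Real.log y) := by
      have h3 := intervalIntegral.norm_integral_le_of_norm_le_const (a := 1 / 2) (b := 3 / 2)
        (f := fun σ : ℝ => Real.log ‖g (pt σ y)‖) (C := 3 * (K * Real.log y)) (by
          intro σ hσ
          rw [uIoc_of_le h12] at hσ
          exact hgl σ ⟨hσ.1.le, by linarith [hσ.2]⟩)
      rw [Real.norm_eq_abs] at h3
      refine h3.trans (le_of_eq ?_)
      norm_num
    rw [e1]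
    refine (abs_add_le _ _).trans ?_
    nlinarith
  · -- the argument
    have e1 : ∫ σ in (1 / 2 : ℝ)..(3 / 2), (LD (pt σ y)).im =
        (∫ σ in (1 / 2 : ℝ)..(3 / 2), (logDeriv (Pf s) (pt σ y)).im) +
          ∫ σ in (1 / 2 : ℝ)..(3 / 2), (logDeriv g (pt σ y)).im := by
      rw [← intervalIntegral.integral_add]
      · refine intervalIntegral.integral_congr fun σ hσ => ?_
        rw [uIcc_of_le h12] at hσ
        have h1 : riemannZeta = fun w => Pf s w * g w := funext hfg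
        have h2 : LD (pt σ y) = logDeriv (Pf s) (pt σ y) + logDeriv g (pt σ y) := by
          have h3 : LD (pt σ y) = logDeriv riemannZeta (pt σ y) := rfl
          rw [h3]
          conv_lhs => rw [h1]
          exact logDeriv_mul (pt σ y) (Pf_ne_zero fun ρ' h' => hsne ρ' h' σ hσ)
            (hg0 _ (hseg' σ (hsub σ hσ))) (Pf_diff s _)
            (hg _ (hseg' σ (hsub σ hσ))).differentiableAt
        rw [h2, Complex.add_im]
      · refine ContinuousOn.intervalIntegrable_of_Icc h12 (cont_ld (fun σ _ => ?_)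
          fun σ hσ => Pf_ne_zero fun ρ' h' => hsne ρ' h' σ hσ)
        exact (Pf_diff s).analyticAt _
      · exact ContinuousOn.intervalIntegrable_of_Icc h12 (cont_ld
          (fun σ hσ => hg _ (hseg' σ (hsub σ hσ))) fun σ hσ => hg0 _ (hseg' σ (hsub σ hσ)))
    have h2 : |∫ σ in (1 / 2 : ℝ)..(3 / 2), (logDeriv g (pt σ y)).im| ≤ K * Real.log y := by
      have h3 := intervalIntegral.norm_integral_le_of_norm_le_const (a := 1 / 2) (b := 3 / 2)
        (f := fun σ : ℝ => (logDeriv g (pt σ y)).im) (C := K * Real.log y) (by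
          intro σ hσ
          rw [uIoc_of_le h12] at hσ
          exact (Complex.abs_im_le_norm _).trans (hld _ (hseg σ ⟨hσ.1.le, by linarith [hσ.2]⟩)))
      rw [Real.norm_eq_abs] at h3
      refine h3.trans (le_of_eq ?_)
      norm_num
    unfold S0
    rw [e1, abs_mul, abs_neg, abs_of_pos (by positivity : 0 < 1 / Real.pi)]
    have hpi := Real.pi_gt_three
    have h3 : |(∫ σ in (1 / 2 : ℝ)..(3 / 2), (logDeriv (Pf s) (pt σ y)).im) +
          ∫ σ in (1 / 2 : ℝ)..(3 / 2), (logDeriv g (pt σ y)).im| ≤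
        Real.pi * (K * Real.log y) + K * Real.log y := by
      refine (abs_add_le _ _).trans (add_le_add (hP2.trans ?_) h2)
      exact mul_le_mul_of_nonneg_left hcard Real.pi_pos.le
    rw [div_mul_eq_mul_div, one_mul, div_le_iff₀ Real.pi_pos]
    nlinarith

end Pool.Agent.Y340.OJ
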